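import Mathlib

/-!
A three-player game with three actions per player in which every induced subgame has a strict
pure Nash equilibrium, but which is not generalized weakly acyclic.
-/

namespace Pool.Agent.Results.MP_f1fe0b_lc.ThreePlayerTrap

/-- Player `i` is satisfied at the profile `a`: the action `a i` is a best response to the other
actions. -/
def Satisfied {n : ℕ} {A : Fin n → Type} (r : Fin n → (∀ i, A i) → ℝ) (i : Fin n)
    (a : ∀ i, A i) : Prop :=
  ∀ b : A i, r i (Function.update a i b) ≤ r i a

/-- The action `a i` is the unique best response of player `i` to the other actions. -/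
def StrictlySatisfied {n : ℕ} {A : Fin n → Type} (r : Fin n → (∀ i, A i) → ℝ) (i : Fin n)
    (a : ∀ i, A i) : Prop :=
  ∀ b : A i, b ≠ a i → r i (Function.update a i b) < r i a

/-- The induced subgame on the player set `N`, the other players being fixed at their actions in
`a`, has a strict pure Nash equilibrium. -/
def HasStrictEquilibrium {n : ℕ} {A : Fin n → Type} (r : Fin n → (∀ i, A i) → ℝ)
    (N : Set (Fin n)) (a : ∀ i, A i) : Prop :=
  ∃ b : ∀ i, A i, (∀ i, i ∉ N → b i = a i) ∧ ∀ i ∈ N, StrictlySatisfied r i b

/-- The edge relation of the satisficing graph: satisfied players keep their actions. -/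
def SatEdge {n : ℕ} {A : Fin n → Type} (r : Fin n → (∀ i, A i) → ℝ) (a a' : ∀ i, A i) : Prop :=
  ∀ i, Satisfied r i a → a' i = a i

/-- Generalized weak acyclicity: from every profile some directed path of the satisficing graph
(possibly of length zero) ends at a pure Nash equilibrium. -/
def GeneralizedWeaklyAcyclic {n : ℕ} {A : Fin n → Type} (r : Fin n → (∀ i, A i) → ℝ) : Prop :=
  ∀ a : ∀ i, A i, ∃ a' : ∀ i, A i, Relation.ReflTransGen (SatEdge r) a a' ∧
    ∀ i, Satisfied r i a'

/-- Best response tables: `tab i p q` is the best response of player `i` when the two other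
players, in increasing order, play `p` and `q`. -/
def tab : Fin 3 → Fin 3 → Fin 3 → Fin 3 :=
  ![![![0, 0, 2], ![0, 2, 2], ![0, 1, 2]],
    ![![0, 0, 0], ![1, 2, 0], ![1, 1, 1]],
    ![![2, 0, 0], ![2, 0, 1], ![2, 0, 2]]]

/-- The best response of player `i` at the profile `a`. -/
def br (i : Fin 3) (a : Fin 3 → Fin 3) : Fin 3 :=
  match i with
  | 0 => tab 0 (a 1) (a 2)
  | 1 => tab 1 (a 0) (a 2)
  | 2 => tab 2 (a 0) (a 1)

/-- The rewards of the example: `1` for the best response and `0` otherwise. -/
noncomputable def rew (i : Fin 3) (a : Fin 3 → Fin 3) : ℝ := if a i = br i a then 1 else 0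

theorem br_update (i : Fin 3) (a : Fin 3 → Fin 3) (b : Fin 3) :
    br i (Function.update a i b) = br i a := by
  fin_cases i <;> simp [br, Function.update]

theorem rew_update (i : Fin 3) (a : Fin 3 → Fin 3) (b : Fin 3) :
    rew i (Function.update a i b) = if b = br i a then 1 else 0 := by
  rw [rew, br_update, Function.update_self]

theorem satisfied_iff (i : Fin 3) (a : Fin 3 → Fin 3) :
    Satisfied (A := fun _ => Fin 3) rew i a ↔ a i = br i a := by
  constructor
  · intro h
    have h1 := h (br i a)
    rw [rew_update, if_pos rfl, rew] at h1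
    by_contra hne
    rw [if_neg hne] at h1
    linarith
  · intro h b
    rw [rew_update, rew, if_pos h]
    split_ifs <;> norm_num

theorem strictlySatisfied_of (i : Fin 3) (a : Fin 3 → Fin 3) (h : a i = br i a) :
    StrictlySatisfied (A := fun _ => Fin 3) rew i a := by
  intro b hb
  rw [rew_update, rew, if_pos h, if_neg (by rw [← h]; exact hb)]
  norm_num

/-- The trap: the profiles reachable from `(0, 0, 0)`. -/
def trap (a : Fin 3 → Fin 3) : Bool :=
  (a 0, a 1, a 2) ∈ ([(0, 0, 0), (0, 0, 1), (0, 0, 2), (0, 1, 0), (0, 2, 0), (1, 0, 2),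
    (1, 1, 0), (2, 0, 2), (2, 1, 0), (2, 1, 1), (2, 1, 2), (2, 2, 2)] :
      List (Fin 3 × Fin 3 × Fin 3))

theorem trap_step : ∀ a b : Fin 3 → Fin 3, trap a = true → (∀ i, a i = br i a → b i = a i) →
    trap b = true := by
  decide +kernel

theorem trap_no_eq : ∀ a : Fin 3 → Fin 3, trap a = true → ¬ ∀ i, a i = br i a := by
  decide +kernel

theorem strict_all : ∀ (N : Finset (Fin 3)) (a : Fin 3 → Fin 3), ∃ b : Fin 3 → Fin 3,
    (∀ i, i ∉ N → b i = a i) ∧ ∀ i ∈ N, b i = br i b := by
  decide +kernel

/-- There is a game with three players and three actions per player whose induced subgames all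
have strict pure Nash equilibria, and which is not generalized weakly acyclic. -/
theorem _root_.Pool.Agent.Results.MP_f1fe0b_lc.ThreePlayerTrap.result :
    ∃ r : Fin 3 → (Fin 3 → Fin 3) → ℝ,
      (∀ (N : Set (Fin 3)) (a : Fin 3 → Fin 3),
        HasStrictEquilibrium (A := fun _ => Fin 3) r N a) ∧
      ¬ GeneralizedWeaklyAcyclic (A := fun _ => Fin 3) r := by
  classical
  refine ⟨rew, ?_, ?_⟩
  · intro N a
    obtain ⟨b, hb1, hb2⟩ := strict_all N.toFinset a
    refine ⟨b, fun i hi => hb1 i (by simpa using hi), fun i hi => ?_⟩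
    exact strictlySatisfied_of i b (hb2 i (by simpa using hi))
  · intro h
    obtain ⟨a', hpath, hne⟩ := h (fun _ => 0)
    have key : trap a' = true := by
      clear hne
      induction hpath with
      | refl => decide
      | tail _ hstep ih =>
        exact trap_step _ _ ih fun i hi => hstep i ((satisfied_iff i _).2 hi)
    exact trap_no_eq a' key fun i => (satisfied_iff i a').1 (hne i)

end Pool.Agent.Results.MP_f1fe0b_lc.ThreePlayerTrap
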